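import Pool.Agent.H242.GX.Stm

/-! GX-CORR for helper242: the flat correction. -/

set_option autoImplicit false

open Set Filter Topology
open scoped ContDiff

namespace Pool.Agent.H195.GX

open Pool.Agent.H242.GX

theorem odd_neg (X : ℝ × ℝ → ℝ × ℝ) (H : ℝ × ℝ → ℝ) (θ t : ℝ) :
    Odd X H θ (-t) = - Odd X H θ t := by
  unfold Pool.Agent.H242.GX.Odd
  rw [neg_neg]
  ring

theorem odd_zero (X : ℝ × ℝ → ℝ × ℝ) (H : ℝ × ℝ → ℝ) (θ : ℝ) : Odd X H θ 0 = 0 := by
  unfold Pool.Agent.H242.GX.Odd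
  rw [neg_zero, sub_self]

/-- `|φ| ≤ y^(1/8)` from fourth powers -/
theorem root_le {φ x : ℝ} (h : |φ| ^ 4 ≤ |x|) : |φ| ≤ (x ^ 2) ^ ((1 : ℝ) / 8) := by
  have h0 : 0 ≤ |φ| := abs_nonneg φ
  have h1 : |φ| ^ 8 ≤ x ^ 2 := by
    have h2 : |φ| ^ 8 = (|φ| ^ 4) ^ 2 := by ring
    rw [h2, ← sq_abs x]
    exact pow_le_pow_left₀ (by positivity) h 2
  have h3 : |φ| = (|φ| ^ 8) ^ ((1 : ℝ) / 8) := by
    rw [← Real.rpow_natCast, ← Real.rpow_mul h0]
    norm_num
  rw [h3]
  exact Real.rpow_le_rpow (by positivity) h1 (by norm_num)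

/-- a function with positive derivative at a zero -/
theorem near_zero {f : ℝ → ℝ} (hf : Differentiable ℝ f) (h0 : f 0 = 0) (hd : 0 < deriv f 0) :
    ∃ r : ℝ, 0 < r ∧ ∀ t : ℝ, |t| < r →
      (0 ≤ t → deriv f 0 / 2 * t ≤ f t ∧ f t ≤ 3 * deriv f 0 / 2 * t) ∧
      (t ≤ 0 → 3 * deriv f 0 / 2 * t ≤ f t ∧ f t ≤ deriv f 0 / 2 * t) := by
  have h1 := ((hf 0).hasDerivAt.isLittleO).def (c := deriv f 0 / 2) (by linarith)
  rw [Metric.eventually_nhds_iff] at h1
  obtain ⟨r, hr, h2⟩ := h1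
  refine ⟨r, hr, fun t ht => ?_⟩
  have h3 := h2 (y := t) (by rw [Real.dist_eq, sub_zero]; exact ht)
  rw [h0, sub_zero, sub_zero, Real.norm_eq_abs, Real.norm_eq_abs, smul_eq_mul] at h3
  constructor
  · intro h
    rw [abs_of_nonneg h] at h3
    obtain ⟨h4, h5⟩ := abs_le.1 h3
    constructor <;> linarith
  · intro h
    rw [abs_of_nonpos h] at h3
    obtain ⟨h4, h5⟩ := abs_le.1 h3
    constructor <;> linarith

theorem gx_CORR (hCORR1 : S_CORR1) (hCORR2 : S_CORR2) (hPER : S_PER) : S_CORR := by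
  intro X Z hW H hH hHp hF
  obtain ⟨lam, s₁, g, hlam, hs₁, hg, hgb, heq⟩ := hCORR1 X Z hW H hH hF
  obtain ⟨G, hG, hG0, hG1, hG2⟩ := hCORR2 X Z hW lam s₁ g hlam hs₁ hg hgb
  obtain ⟨P, hP, hPp, hP0, hPG⟩ := hPER G hG hG0
  have hπ := Real.pi_gt_three
  have hX1 : ∀ θ : ℝ, ContDiff ℝ ∞ (fun t => (X (θ, t)).1) := fun θ =>
    contDiff_fst.comp (hW.smX.comp (contDiff_const.prodMk contDiff_id))
  have hX2 : ∀ θ : ℝ, ContDiff ℝ ∞ (fun t => (X (θ, t)).2) := fun θ =>
    contDiff_snd.comp (hW.smX.comp (contDiff_const.prodMk contDiff_id))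
  have hd1 : ∀ θ : ℝ, Differentiable ℝ (fun t => (X (θ, t)).1) := fun θ =>
    (hX1 θ).differentiable (by simp)
  have hd2 : ∀ θ : ℝ, Differentiable ℝ (fun t => (X (θ, t)).2) := fun θ =>
    (hX2 θ).differentiable (by simp)
  refine ⟨P, hP, hPp, hP0, ?_, ?_⟩
  · -- the line number `0`
    obtain ⟨r1, hr1, h1⟩ := near_zero (hd1 0) (by simp [hW.axis]) (hW.der1 0)
    obtain ⟨r2, hr2, h2⟩ := near_zero (hd2 0) (by simp [hW.axis]) (hW.der2 0)
    have ha := hW.der1 0
    have hb := hW.der2 0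
    set a := deriv (fun t => (X (0, t)).1) 0 with hadef
    set b := deriv (fun t => (X (0, t)).2) 0 with hbdef
    set q : ℝ := (b / 2) / (3 * a / 2) ^ 4 with hq
    have hq0 : 0 < q := by positivity
    set q' : ℝ := 1 / (3 * a / 2) with hq'
    have hq'0 : 0 < q' := by positivity
    refine ⟨min (min r1 r2) (min 1 (min q q')), by positivity, fun t ht => ?_⟩
    have ht1 : |t| < r1 := ht.trans_le ((min_le_left _ _).trans (min_le_left _ _))
    have ht2 : |t| < r2 := ht.trans_le ((min_le_left _ _).trans (min_le_right _ _))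
    have ht3 : |t| < 1 := ht.trans_le ((min_le_right _ _).trans (min_le_left _ _))
    have ht4 : |t| < q := ht.trans_le ((min_le_right _ _).trans
      ((min_le_right _ _).trans (min_le_left _ _)))
    have ht5 : |t| < q' := ht.trans_le ((min_le_right _ _).trans
      ((min_le_right _ _).trans (min_le_right _ _)))
    obtain ⟨h1p, h1n⟩ := h1 t ht1
    obtain ⟨h2p, h2n⟩ := h2 t ht2
    have ht0 : 0 ≤ |t| := abs_nonneg t
    -- sizes
    have hφ : |(X (0, t)).1| ≤ 3 * a / 2 * |t| := by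
      rcases le_total 0 t with h | h
      · obtain ⟨h3, h4⟩ := h1p h
        have h5 : 0 ≤ a / 2 * t := by positivity
        rw [abs_of_nonneg h, abs_of_nonneg (by linarith)]
        exact h4
      · obtain ⟨h3, h4⟩ := h1n h
        have h5 : a / 2 * t ≤ 0 := mul_nonpos_of_nonneg_of_nonpos (by positivity) h
        rw [abs_of_nonpos h, abs_of_nonpos (by linarith)]
        linarith
    have hr : b / 2 * |t| ≤ |(X (0, t)).2| := by
      rcases le_total 0 t with h | h
      · obtain ⟨h3, h4⟩ := h2p h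
        have h5 : 0 ≤ b / 2 * t := by positivity
        rw [abs_of_nonneg h, abs_of_nonneg (by linarith)]
        exact h3
      · obtain ⟨h3, h4⟩ := h2n h
        have h5 : b / 2 * t ≤ 0 := mul_nonpos_of_nonneg_of_nonpos (by positivity) h
        rw [abs_of_nonpos h, abs_of_nonpos (by linarith)]
        linarith
    have hφ1 : |(X (0, t)).1| ≤ 1 := by
      refine hφ.trans ?_
      rw [hq', lt_div_iff₀ (by positivity)] at ht5
      linarith
    have hfour : |(X (0, t)).1| ^ 4 ≤ |(X (0, t)).2| := by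
      refine le_trans ?_ hr
      have e1 : |(X (0, t)).1| ^ 4 ≤ (3 * a / 2 * |t|) ^ 4 :=
        pow_le_pow_left₀ (abs_nonneg _) hφ 4
      refine e1.trans ?_
      rw [mul_pow]
      have e2 : |t| ^ 4 ≤ |t| * |t| := by
        have e3 : |t| ^ 4 = |t| ^ 2 * (|t| * |t|) := by ring
        rw [e3]
        have e4 : |t| ^ 2 ≤ 1 := pow_le_one₀ ht0 ht3.le
        exact mul_le_of_le_one_left (by positivity) e4
      have e5 : |t| * (3 * a / 2) ^ 4 ≤ b / 2 := by
        rw [hq, lt_div_iff₀ (by positivity)] at ht4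
        exact ht4.le
      calc (3 * a / 2) ^ 4 * |t| ^ 4 ≤ (3 * a / 2) ^ 4 * (|t| * |t|) := by gcongr
        _ = (|t| * (3 * a / 2) ^ 4) * |t| := by ring
        _ ≤ b / 2 * |t| := by gcongr
    have hroot := root_le hfour
    rcases lt_trichotomy t 0 with h | h | h
    · obtain ⟨h3, h4⟩ := h1n h.le
      have h5 : a / 2 * t < 0 := mul_neg_of_pos_of_neg (by positivity) h
      have h6 : (X (0, t)).1 < 0 := by linarith
      have h7 := hW.sgn' 0 t h
      have h8 : 0 < (X (0, t)).2 ^ 2 := by nlinarith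
      rw [abs_of_neg h6] at hroot hφ1
      rw [← hPp, hPG _ _ (by linarith) (by linarith)]
      exact hG1 _ _ h8 (Or.inr (by linarith))
    · subst h
      rw [hW.axis]
      exact hP0 _ _ (by norm_num)
    · obtain ⟨h3, h4⟩ := h1p h.le
      have h5 : 0 < a / 2 * t := by positivity
      have h6 : 0 < (X (0, t)).1 := by linarith
      have h7 := hW.sgn 0 t h
      have h8 : 0 < (X (0, t)).2 ^ 2 := by nlinarith
      rw [abs_of_pos h6] at hroot hφ1
      rw [hPG _ _ h6.le (by linarith)]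
      exact hG1 _ _ h8 (Or.inl hroot)
  · -- the other lines
    intro θ hθ0 hθ1
    obtain ⟨r, hr, h1⟩ := hG2 θ hθ0 hθ1
    have hcont : Continuous (fun t => (X (θ, t)).1) := (hX1 θ).continuous
    have hev : ∀ᶠ t in 𝓝 (0 : ℝ), (X (θ, t)).1 ∈ Ioo 0 (2 * Real.pi) := by
      apply hcont.continuousAt.eventually_mem
      apply Ioo_mem_nhds
      · rw [hW.axis]; exact hθ0
      · rw [hW.axis]; exact hθ1
    rw [Metric.eventually_nhds_iff] at hev
    obtain ⟨r', hr', h2⟩ := hev
    have h2' : ∀ t : ℝ, |t| < r' → 0 < (X (θ, t)).1 ∧ (X (θ, t)).1 < 2 * Real.pi := fun t ht =>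
      h2 (y := t) (by rw [Real.dist_eq, sub_zero]; exact ht)
    have hL : 0 < lam * Real.exp s₁ := by positivity
    have key : ∀ t : ℝ, 0 < t → t < min (min r r') (lam * Real.exp s₁) →
        Odd X (fun x => H x + P x) θ t = 0 := by
      intro t ht0 ht
      have ht1 : t < r := ht.trans_le ((min_le_left _ _).trans (min_le_left _ _))
      have ht2 : t < r' := ht.trans_le ((min_le_left _ _).trans (min_le_right _ _))
      have ht3 : t < lam * Real.exp s₁ := ht.trans_le (min_le_right _ _)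
      obtain ⟨e1, e2⟩ := h1 t ht0 ht1
      obtain ⟨p1, p2⟩ := h2' t (by rw [abs_of_pos ht0]; exact ht2)
      obtain ⟨p3, p4⟩ := h2' (-t) (by rw [abs_neg, abs_of_pos ht0]; exact ht2)
      have e3 := heq (θ, Real.log (t / lam)) (by simp only; linarith) (by simp only; linarith) (by
        simp only
        rw [Real.log_lt_iff_lt_exp (by positivity), div_lt_iff₀ hlam]
        linarith)
      simp only at e3
      have e4 : lam * Real.exp (Real.log (t / lam)) = t := by
        rw [Real.exp_log (by positivity)]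
        field_simp
      rw [e4, ← e1, ← e2, ← hPG _ _ p1.le p2.le, ← hPG _ _ p3.le p4.le] at e3
      unfold Pool.Agent.H242.GX.Odd at e3 ⊢
      linarith
    refine ⟨min (min r r') (lam * Real.exp s₁), by positivity, fun t ht => ?_⟩
    rcases lt_trichotomy t 0 with h | h | h
    · have h3 := key (-t) (by linarith) (by rwa [abs_of_neg h] at ht)
      rw [odd_neg] at h3
      linarith
    · subst h
      exact odd_zero _ _ _
    · exact key t h (by rwa [abs_of_pos h] at ht)

end Pool.Agent.H195.GX
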